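import Pool.Agent.UL7.Stmts

/-!
# Squad UL7, row TIN: interior points
-/

set_option autoImplicit false

namespace Pool.Agent.UL7.H98

open MeasureTheory Set Pool.Agent.UL3 Pool.Agent.UL4 Pool.Agent.UL5 Pool.Agent.UL7

/-- **TIN** -/
theorem tin : TinStmt := by
  intro A hc hA hint
  refine ⟨hc, hA, ?_⟩
  obtain ⟨q, hq⟩ := hint
  obtain ⟨a, ha, -⟩ := interior_subset hq
  have hne : A.Nonempty := ⟨a, ha⟩
  have hsub : dh A ⊆ (vectorSpan ℝ A : Set (ℝ × ℝ)) := by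
    rintro p ⟨x, hx, y, hy, rfl⟩
    exact Submodule.smul_mem _ _ (vsub_mem_vectorSpan ℝ hx hy)
  have htop : vectorSpan ℝ A = ⊤ :=
    Submodule.eq_top_of_nonempty_interior' _ ⟨q, interior_mono hsub hq⟩
  rw [hA.interior_nonempty_iff_affineSpan_eq_top,
    AffineSubspace.affineSpan_eq_top_iff_vectorSpan_eq_top_of_nonempty ℝ (ℝ × ℝ) (ℝ × ℝ) hne]
  exact htop

end Pool.Agent.UL7.H98
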